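import Pool.Agent.MP_c62c12_an.Defs
import Pool.Agent.MP_c62c12_an.Proof

set_option autoImplicit false

namespace Pool.Agent.Results.MP_c62c12_an.UnboundedPeriod

open Pool.Agent.MP_c62c12_an

/-- For every constant `c > 0` there are an irrational `α > 0` and a starting point without ties
whose greedy sign sequence is eventually periodic with least period larger than `c / ‖2 α‖`. -/
theorem result : ∀ c : ℝ, 0 < c → ∃ (α : ℝ) (z : ℂ) (p : ℕ),
    Irrational α ∧ 0 < α ∧ Admissible α z ∧ IsLeast {q : ℕ | IsEventualPeriod (eps α z) q} p ∧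
    c / distInt (2 * α) < (p : ℝ) :=
  Pool.Agent.MP_c62c12_an.main

end Pool.Agent.Results.MP_c62c12_an.UnboundedPeriod
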